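import Mathlib
import Pool.Agent.N299.DT.Stm2
import Pool.Agent.N682.DT.F4
import Pool.Agent.H188R3.Inj
import Pool.Agent.W658.ZS.Tower

/-!
Project DT (MP_fb67b4_an, helper299), part APPR: half flip and central sequences give the
intertwining unitaries (helper348).
-/

set_option autoImplicit false
set_option linter.unusedSectionVars false

open scoped BoundedContinuousFunction Topology TensorProduct
open Filter

noncomputable section

namespace Pool.Agent.N348.DT

open Pool.Agent.N299 Pool.Agent.N299.DT Pool.Agent.H188R3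
open Pool.Agent.W658.ZS (rng left_mem_rng right_mem_rng prodMap_comp)
open Pool.Agent.N682.DT (eventually_le cen_comm)

lemma nle {A B : Type} [CStarAlgebra A] [CStarAlgebra B] (f : A →⋆ₐ[ℂ] B) (x : A) : ‖f x‖ ≤ ‖x‖ :=
  NonUnitalStarAlgHom.norm_apply_le (f : A →⋆ₙₐ[ℂ] B) x

/-- factorization through a surjective homomorphism -/
lemma lift_hom {L Q P : Type} [CStarAlgebra L] [CStarAlgebra Q] [CStarAlgebra P] (q : L →⋆ₐ[ℂ] Q)
    (hq : Function.Surjective q) (f : L →⋆ₐ[ℂ] P) (h : ∀ x, q x = 0 → f x = 0) :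
    ∃ g : Q →⋆ₐ[ℂ] P, ∀ x, g (q x) = f x := by
  have key : ∀ x y, q x = q y → f x = f y := fun x y hxy => by
    have := h (x - y) (by rw [map_sub, hxy, sub_self])
    rw [map_sub] at this
    exact sub_eq_zero.1 this
  choose s hs using hq
  exact ⟨{ toFun := fun c => f (s c)
           map_one' := by rw [← map_one f]; exact key _ _ (by rw [hs, map_one])
           map_mul' := fun x y => by rw [← map_mul f]; exact key _ _ (by rw [hs, map_mul, hs, hs])
           map_zero' := by rw [← map_zero f]; exact key _ _ (by rw [hs, map_zero])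
           map_add' := fun x y => by rw [← map_add f]; exact key _ _ (by rw [hs, map_add, hs, hs])
           commutes' := fun c => by
            rw [← AlgHomClass.commutes f c]
            exact key _ _ (by rw [hs, AlgHomClass.commutes])
           map_star' := fun x => by
            rw [← map_star f]
            exact key _ _ (by rw [hs, map_star, hs]) }, fun x => key _ _ (hs _)⟩

/-- composition of bounded sequences with a homomorphism -/
def cmp {A B : Type} [CStarAlgebra A] [CStarAlgebra B] (f : A →⋆ₐ[ℂ] B) :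
    (ℕ →ᵇ A) →⋆ₐ[ℂ] (ℕ →ᵇ B) where
  toFun x := BoundedContinuousFunction.ofNormedAddCommGroup (fun n => f (x n))
    continuous_of_discreteTopology ‖x‖ (fun n => (nle f _).trans (x.norm_coe_le_norm n))
  map_one' := by ext n; exact map_one f
  map_mul' x y := by ext n; exact map_mul f _ _
  map_zero' := by ext n; exact map_zero f
  map_add' x y := by ext n; exact map_add f _ _
  commutes' c := by ext n; exact AlgHomClass.commutes f c
  map_star' x := by ext n; exact map_star f _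

lemma cmp_apply {A B : Type} [CStarAlgebra A] [CStarAlgebra B] (f : A →⋆ₐ[ℂ] B) (x : ℕ →ᵇ A)
    (n : ℕ) : cmp f x n = f (x n) := rfl

/-- constant sequences -/
def cstH (B : Type) [CStarAlgebra B] : B →⋆ₐ[ℂ] (ℕ →ᵇ B) where
  toFun := cst
  map_one' := by ext n; rfl
  map_mul' x y := by ext n; rfl
  map_zero' := by ext n; rfl
  map_add' x y := by ext n; rfl
  commutes' c := by ext n; rfl
  map_star' x := by ext n; rfl

/-- almost unitary elements are close to unitaries -/
lemma polar {B : Type} [CStarAlgebra B] [Nontrivial B] (y : B) {d : ℝ} (hd : d ≤ 1 / 2)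
    (h1 : ‖star y * y - 1‖ ≤ d) (h2 : ‖y * star y - 1‖ ≤ d) :
    ∃ w ∈ unitary B, ‖y - w‖ ≤ d := by
  set h : B := star y * y with hh
  have hsa : IsSelfAdjoint h := IsSelfAdjoint.star_mul_self y
  have hsp : ∀ t ∈ spectrum ℝ h, |t - 1| ≤ d := by
    intro t ht
    have e1 : cfc (fun t : ℝ => t - 1) h = h - 1 := by
      rw [cfc_sub (R := ℝ) (fun t => t) (fun _ => 1) h (by fun_prop) (by fun_prop), cfc_id' ℝ h,
        cfc_const_one ℝ h]
    have e2 : ‖(fun t : ℝ => t - 1) t‖ ≤ ‖cfc (fun t : ℝ => t - 1) h‖ :=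
      norm_apply_le_norm_cfc (fun t : ℝ => t - 1) h ht (by fun_prop) hsa
    rw [e1] at e2
    exact e2.trans h1
  have hpos : ∀ t ∈ spectrum ℝ h, 0 < t := by
    intro t ht
    have := (abs_le.1 (hsp t ht)).1
    linarith
  have hcont : ContinuousOn (fun t : ℝ => (Real.sqrt t)⁻¹) (spectrum ℝ h) := by
    refine ContinuousOn.inv₀ (by fun_prop) fun t ht => ?_
    exact (Real.sqrt_pos.2 (hpos t ht)).ne'
  set g : B := cfc (fun t : ℝ => (Real.sqrt t)⁻¹) h with hg
  set s : B := cfc (fun t : ℝ => Real.sqrt t) h with hs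
  have hgs : g * s = 1 := by
    rw [hg, hs, ← cfc_mul (R := ℝ) _ _ h hcont (by fun_prop), ← cfc_one ℝ h]
    refine cfc_congr fun t ht => ?_
    exact inv_mul_cancel₀ (Real.sqrt_pos.2 (hpos t ht)).ne'
  have hgsa : star g = g := cfc_sa _ _
  have hghg : g * h * g = 1 := by
    nth_rewrite 1 [← cfc_id' ℝ h]
    rw [hg, ← cfc_mul (R := ℝ) _ _ h hcont (by fun_prop), ← cfc_mul (R := ℝ)
      (fun t : ℝ => (Real.sqrt t)⁻¹ * t) (fun t : ℝ => (Real.sqrt t)⁻¹) h
      (hcont.mul (by fun_prop)) hcont, ← cfc_one ℝ h]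
    refine cfc_congr fun t ht => ?_
    have h0 : 0 < t := hpos t ht
    have h1 : Real.sqrt t ≠ 0 := (Real.sqrt_pos.2 h0).ne'
    have h2 : Real.sqrt t * Real.sqrt t = t := Real.mul_self_sqrt h0.le
    simp only [Pi.one_apply]
    field_simp
    nlinarith
  set w : B := y * g with hw
  have hww : star w * w = 1 := by
    rw [hw, star_mul, hgsa]
    calc g * star y * (y * g) = g * (star y * y) * g := by noncomm_ring
      _ = 1 := hghg
  have hyw : y = w * s := by
    rw [hw, mul_assoc, hgs, mul_one]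
  have hww' : w * star w = 1 := by
    have h3 : w * star w * (y * star y) = y * star y := by
      calc w * star w * (y * star y) = w * star w * (w * s * star y) := by rw [← hyw]
        _ = w * (star w * w) * s * star y := by noncomm_ring
        _ = w * s * star y := by rw [hww, mul_one]
        _ = _ := by rw [← hyw]
    have h4 : IsUnit (y * star y) := by
      have h5 : ‖1 - y * star y‖ < 1 := by
        rw [norm_sub_rev]
        linarith
      have h6 := isUnit_one_sub_of_norm_lt_one h5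
      rwa [sub_sub_cancel] at h6
    obtain ⟨b, hb⟩ := h4.exists_right_inv
    calc w * star w = w * star w * ((y * star y) * b) := by rw [hb, mul_one]
      _ = (w * star w * (y * star y)) * b := by noncomm_ring
      _ = 1 := by rw [h3, hb]
  have hwu : w ∈ unitary B := Unitary.mem_iff.2 ⟨hww, hww'⟩
  refine ⟨w, hwu, ?_⟩
  have h5 : y - w = w * (s - 1) := by
    rw [mul_sub, mul_one, ← hyw]
  rw [h5]
  refine (norm_mul_le _ _).trans ?_
  rw [CStarRing.norm_of_mem_unitary hwu, one_mul]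
  have e1 : s - 1 = cfc (fun t : ℝ => Real.sqrt t - 1) h := by
    rw [cfc_sub (R := ℝ) (fun t => Real.sqrt t) (fun _ => 1) h (by fun_prop) (by fun_prop),
      cfc_const_one ℝ h]
  rw [e1]
  have hd0 : 0 ≤ d := (norm_nonneg _).trans h1
  refine norm_cfc_le hd0 fun t ht => ?_
  have h6 := hsp t ht
  have h7 := hpos t ht
  have h8 : Real.sqrt t * Real.sqrt t = t := Real.mul_self_sqrt h7.le
  have h9 : 0 ≤ Real.sqrt t := Real.sqrt_nonneg t
  rw [Real.norm_eq_abs]
  have h10 : |Real.sqrt t - 1| * (Real.sqrt t + 1) = |t - 1| := by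
    have : t - 1 = (Real.sqrt t - 1) * (Real.sqrt t + 1) := by nlinarith
    rw [this, abs_mul, abs_of_nonneg (by linarith : 0 ≤ Real.sqrt t + 1)]
  have h11 : 0 ≤ |Real.sqrt t - 1| := abs_nonneg _
  nlinarith

instance closedRng {A B D : Type} [CStarAlgebra A] [CStarAlgebra B] [CStarAlgebra D]
    (f : A →⋆ₐ[ℂ] D) (g : B →⋆ₐ[ℂ] D) (hc : ∀ a b, f a * g b = g b * f a) :
    IsClosed (((rng f g hc).topologicalClosure : StarSubalgebra ℂ D) : Set D) :=
  (rng f g hc).isClosed_topologicalClosure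

/-- two commuting copies of a simple nuclear algebra generate the minimal tensor product -/
lemma minTensor {Z P : Type} [CStarAlgebra Z] [CStarAlgebra P] [Nontrivial P] (hZ : IsSimpleRing Z)
    (hN : Nuc Z) (f g : Z →⋆ₐ[ℂ] P) (hc : ∀ a b, f a * g b = g b * f a) :
    ∃ f' g' : Z →⋆ₐ[ℂ] (rng f g hc).topologicalClosure, IsMinTensor f' g' ∧
      (∀ z, ((f' z : (rng f g hc).topologicalClosure) : P) = f z) ∧
      ∀ z, ((g' z : (rng f g hc).topologicalClosure) : P) = g z := by
  set R := rng f g hc with hR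
  set f' : Z →⋆ₐ[ℂ] R.topologicalClosure :=
    f.codRestrict R.topologicalClosure (fun z => R.le_topologicalClosure (left_mem_rng f g hc z)) with hf'
  set g' : Z →⋆ₐ[ℂ] R.topologicalClosure :=
    g.codRestrict R.topologicalClosure (fun z => R.le_topologicalClosure (right_mem_rng f g hc z)) with hg'
  have hf'c : ∀ z, ((f' z : R.topologicalClosure) : P) = f z := fun z => rfl
  have hg'c : ∀ z, ((g' z : R.topologicalClosure) : P) = g z := fun z => rfl
  have hc' : ∀ a b, f' a * g' b = g' b * f' a := fun a b => Subtype.ext (hc a b)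
  have hinj : Function.Injective f' := by
    intro a b hab
    have h1 : f a = f b := congrArg Subtype.val hab
    exact RingHom.injective (f : Z →+* P) h1
  have hn : IsCStarNormed f' g' := ⟨hc', prodMap_injective f' g' hc' hinj⟩
  refine ⟨f', g', ⟨hn, ?_, ?_⟩, hf'c, hg'c⟩
  · intro t
    rw [Metric.mem_closure_iff]
    intro ε hε
    have ht : (t : P) ∈ closure (R : Set P) := by
      rw [← StarSubalgebra.topologicalClosure_coe]
      exact t.2
    obtain ⟨y, hy, hty⟩ := Metric.mem_closure_iff.1 ht ε hε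
    obtain ⟨x, hx⟩ := hy
    refine ⟨prodMap f' g' x, ⟨x, rfl⟩, ?_⟩
    have h1 : ((prodMap f' g' x : R.topologicalClosure) : P) = prodMap f g x :=
      (prodMap_comp f' g' R.topologicalClosure.subtype x).symm
    rw [Subtype.dist_eq, h1, hx]
    exact hty
  · intro E _ f'' g'' hn' x
    exact (hN _ _ _ _ _ f'' g'' hn hn' x).le

/-- elements of the closure commute with the commutant -/
lemma comm_closure {Z P : Type} [CStarAlgebra Z] [CStarAlgebra P] (f g : Z →⋆ₐ[ℂ] P)
    (hc : ∀ a b, f a * g b = g b * f a) (c : P) (h1 : ∀ z, f z * c = c * f z)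
    (h2 : ∀ z, g z * c = c * g z) (u : (rng f g hc).topologicalClosure) :
    (u : P) * c = c * (u : P) := by
  have hcl : IsClosed {x : P | x * c = c * x} :=
    isClosed_eq (continuous_id.mul continuous_const) (continuous_const.mul continuous_id)
  have hsub : ((rng f g hc : StarSubalgebra ℂ P) : Set P) ⊆ {x : P | x * c = c * x} := by
    rintro _ ⟨x, rfl⟩
    show prodMap f g x * c = c * prodMap f g x
    induction x using TensorProduct.induction_on with
    | zero => simp
    | add u v hu hv => rw [map_add, add_mul, mul_add, hu, hv]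
    | tmul a b =>
      rw [prodMap_tmul, mul_assoc, h2, ← mul_assoc, h1, mul_assoc]
  have h3 : (u : P) ∈ closure ((rng f g hc : StarSubalgebra ℂ P) : Set P) := by
    rw [← StarSubalgebra.topologicalClosure_coe]
    exact u.2
  exact closure_minimal hsub hcl h3

/-- the sequence: for a finite set of elements of `Z` and of `A` -/
lemma exists_w (hUPX : S_UPX) {A B Q Z : Type} [CStarAlgebra A] [CStarAlgebra B] [CStarAlgebra Q]
    [CStarAlgebra Z] {ω : Ultrafilter ℕ} {q : (ℕ →ᵇ A) →⋆ₐ[ℂ] Q} (hq : IsUP A Q ω q)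
    [Nontrivial B] (hZ : IsSimpleRing Z) (hN : Nuc Z) (hH : HalfFlip Z)
    (θ : Z →⋆ₐ[ℂ] Q) (hθ : ∀ x, θ x ∈ Cen q) (ι : A →⋆ₐ[ℂ] B) (κ : Z →⋆ₐ[ℂ] B)
    (hc : ∀ a z, ι a * κ z = κ z * ι a) (F : Finset A) (FZ : Finset Z) {η : ℝ} (hη : 0 < η)
    (hη1 : η ≤ 1 / 2) : ∃ w ∈ unitary B, (∀ a ∈ F, ‖w * ι a - ι a * w‖ ≤ η * (1 + 2 * ‖a‖)) ∧
      ∀ z ∈ FZ, ∃ a, ‖w * κ z * star w - ι a‖ ≤ η * (1 + 3 * ‖z‖) := by
  obtain ⟨P, _, p, hp⟩ := hUPX B ω
  -- `ι` on the ultrapowers
  obtain ⟨ιω, hιω⟩ := lift_hom q hq.surj (p.comp (cmp ι)) (fun x hx => by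
    show p (cmp ι x) = 0
    rw [hp.ker]
    have h1 := (hq.ker x).1 hx
    exact squeeze_zero (fun n => norm_nonneg _) (fun n => nle ι (x n)) h1)
  set θ1 : Z →⋆ₐ[ℂ] P := p.comp ((cstH B).comp κ) with hθ1
  set θ2 : Z →⋆ₐ[ℂ] P := ιω.comp θ with hθ2
  have hP : Nontrivial P := by
    refine ⟨⟨1, 0, fun h => ?_⟩⟩
    have h1 : p 1 = 0 := by rw [map_one, h]
    have h2 := (hp.ker 1).1 h1
    have h3 : (fun n => ‖(1 : ℕ →ᵇ B) n‖) = fun _ => (1 : ℝ) := by
      funext n
      show ‖(1 : B)‖ = 1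
      exact norm_one
    rw [h3] at h2
    exact one_ne_zero (tendsto_nhds_unique tendsto_const_nhds h2)
  have hcc : ∀ z z', θ1 z * θ2 z' = θ2 z' * θ1 z := by
    intro z z'
    obtain ⟨x, hx⟩ := hq.surj (θ z')
    show p (cst (κ z)) * ιω (θ z') = ιω (θ z') * p (cst (κ z))
    rw [← hx, hιω]
    show p (cst (κ z)) * p (cmp ι x) = p (cmp ι x) * p (cst (κ z))
    rw [← map_mul, ← map_mul]
    congr 1
    ext n
    show κ z * ι (x n) = ι (x n) * κ z
    exact (hc _ _).symm
  have hc1 : ∀ a z, θ1 z * p (cst (ι a)) = p (cst (ι a)) * θ1 z := by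
    intro a z
    show p (cst (κ z)) * p (cst (ι a)) = _ * p (cst (κ z))
    rw [← map_mul, ← map_mul]
    congr 1
    ext n
    exact (hc _ _).symm
  have hιa : ∀ a, ιω (q (cst a)) = p (cst (ι a)) := by
    intro a
    rw [hιω]
    show p (cmp ι (cst a)) = p (cst (ι a))
    congr 1
  have hc2 : ∀ a z, θ2 z * p (cst (ι a)) = p (cst (ι a)) * θ2 z := by
    intro a z
    show ιω (θ z) * p (cst (ι a)) = p (cst (ι a)) * ιω (θ z)
    rw [← hιa, ← map_mul, ← map_mul, cen_comm (hθ z)]
  obtain ⟨f', g', hmin, hf', hg'⟩ := minTensor hZ hN θ1 θ2 hcc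
  obtain ⟨u, hu, hu2⟩ := hH _ f' g' hmin FZ (η / 2) (half_pos hη)
  have huP : star (u : P) * (u : P) = 1 := congrArg Subtype.val (Unitary.mem_iff.1 hu).1
  have huP' : (u : P) * star (u : P) = 1 := congrArg Subtype.val (Unitary.mem_iff.1 hu).2
  have hu3 : ∀ z ∈ FZ, ‖(u : P) * θ1 z * star (u : P) - θ2 z‖ < η / 2 := by
    intro z hz
    have h1 := hu2 z hz
    rw [← hf', ← hg']
    exact h1
  have hu4 : ∀ a, (u : P) * p (cst (ι a)) = p (cst (ι a)) * (u : P) := fun a =>
    comm_closure θ1 θ2 hcc _ (hc1 a) (hc2 a) u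
  obtain ⟨x, hx⟩ := hp.surj (u : P)
  have hη0 : (0 : ℝ) ≤ η / 2 := (half_pos hη).le
  have E1 : ∀ᶠ n in (ω : Filter ℕ), ‖star (x n) * x n - 1‖ ≤ η := by
    refine eventually_le hp (star x * x - 1) hη ?_
    rw [map_sub, map_mul, map_star, map_one, hx, huP, sub_self, norm_zero]
    exact hη0
  have E2 : ∀ᶠ n in (ω : Filter ℕ), ‖x n * star (x n) - 1‖ ≤ η := by
    refine eventually_le hp (x * star x - 1) hη ?_
    rw [map_sub, map_mul, map_star, map_one, hx, huP', sub_self, norm_zero]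
    exact hη0
  have E3 : ∀ᶠ n in (ω : Filter ℕ), ∀ a ∈ F, ‖x n * ι a - ι a * x n‖ ≤ η := by
    refine (eventually_all_finset F).2 fun a _ => ?_
    refine eventually_le hp (x * cst (ι a) - cst (ι a) * x) hη ?_
    rw [map_sub, map_mul, map_mul, hx, hu4, sub_self, norm_zero]
    exact hη0
  have hl : ∀ z, ∃ y : ℕ →ᵇ A, q y = θ z := fun z => hq.surj (θ z)
  choose y hy using hl
  have E4 : ∀ᶠ n in (ω : Filter ℕ), ∀ z ∈ FZ, ‖x n * κ z * star (x n) - ι (y z n)‖ ≤ η := by
    refine (eventually_all_finset FZ).2 fun z hz => ?_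
    refine eventually_le hp (x * cst (κ z) * star x - cmp ι (y z)) hη ?_
    rw [map_sub, map_mul, map_mul, map_star, hx]
    have h1 : p (cmp ι (y z)) = θ2 z := by
      show p (cmp ι (y z)) = ιω (θ z)
      rw [← hy z, hιω]
      rfl
    rw [h1]
    exact (hu3 z hz).le
  obtain ⟨n, n1, n2, n3, n4⟩ := (E1.and (E2.and (E3.and E4))).exists
  obtain ⟨w, hw, hxw⟩ := polar (x n) hη1 n1 n2
  have hw1 : ‖w‖ = 1 := CStarRing.norm_of_mem_unitary hw
  have hwx : ‖w - x n‖ ≤ η := by rw [norm_sub_rev]; exact hxw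
  refine ⟨w, hw, ?_, ?_⟩
  · intro a ha
    have h1 : w * ι a - ι a * w = (x n * ι a - ι a * x n) + ((w - x n) * ι a - ι a * (w - x n)) := by
      noncomm_ring
    rw [h1]
    refine (norm_add_le _ _).trans ?_
    have h2 : ‖(w - x n) * ι a - ι a * (w - x n)‖ ≤ 2 * (η * ‖a‖) := by
      refine (norm_sub_le _ _).trans ?_
      have h3 := norm_mul_le (w - x n) (ι a)
      have h4 := norm_mul_le (ι a) (w - x n)
      have h5 : ‖w - x n‖ * ‖ι a‖ ≤ η * ‖a‖ := mul_le_mul hwx (nle ι a) (norm_nonneg _) hη.le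
      rw [mul_comm ‖ι a‖] at h4
      linarith
    have := n3 a ha
    nlinarith
  · intro z hz
    refine ⟨y z n, ?_⟩
    have h1 : w * κ z * star w - ι (y z n) = (x n * κ z * star (x n) - ι (y z n)) +
        ((w - x n) * κ z * star w + x n * κ z * star (w - x n)) := by
      rw [star_sub]
      noncomm_ring
    rw [h1]
    refine (norm_add_le _ _).trans ?_
    have hx1 : ‖x n‖ ≤ 2 := by
      have : x n = w - (w - x n) := by abel
      rw [this]
      refine (norm_sub_le _ _).trans ?_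
      linarith
    have h2 : ‖(w - x n) * κ z * star w‖ ≤ η * ‖z‖ := by
      refine (norm_mul_le _ _).trans ?_
      rw [norm_star, hw1, mul_one]
      exact (norm_mul_le _ _).trans (mul_le_mul hwx (nle κ z) (norm_nonneg _) hη.le)
    have h3 : ‖x n * κ z * star (w - x n)‖ ≤ 2 * ‖z‖ * η := by
      refine (norm_mul_le _ _).trans ?_
      rw [norm_star]
      refine mul_le_mul ((norm_mul_le _ _).trans (mul_le_mul hx1 (nle κ z) (norm_nonneg _) zero_le_two))
        hwx (norm_nonneg _) (by positivity)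
    have h4 := norm_add_le ((w - x n) * κ z * star w) (x n * κ z * star (w - x n))
    have h5 := n4 z hz
    nlinarith

theorem t_APPR (hUPX : S_UPX) : S_APPR := by
  classical
  intro A B Q Z _ _ _ _ ω q hq _ hB hZ hN hH θ hθ ι κ hc hdense F G ε hε
  -- finite sums
  have happ : ∀ b : B, ∃ S : Finset (A × Z), ‖b - ∑ i ∈ S, ι i.1 * κ i.2‖ < ε / 2 := by
    intro b
    obtain ⟨_, ⟨t, rfl⟩, ht⟩ := Metric.mem_closure_iff.1 (hdense b) (ε / 2) (half_pos hε)
    obtain ⟨S, hS⟩ := TensorProduct.exists_finset t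
    refine ⟨S, ?_⟩
    rw [dist_eq_norm] at ht
    have : prodMap ι κ t = ∑ i ∈ S, ι i.1 * κ i.2 := by
      rw [hS, map_sum]
      rfl
    rwa [← this]
  choose S hS using happ
  set F' : Finset A := F ∪ G.biUnion (fun b => (S b).image Prod.fst) with hF'
  set FZ : Finset Z := G.biUnion (fun b => (S b).image Prod.snd) with hFZ
  set M : ℝ := ∑ a ∈ F', ‖a‖ + ∑ z ∈ FZ, ‖z‖ with hM
  set K : ℝ := ∑ b ∈ G, ∑ i ∈ S b, (‖i.1‖ + ‖i.2‖) with hK
  have hM0 : 0 ≤ M := by positivity
  have hK0 : 0 ≤ K := by positivity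
  have hMa : ∀ a ∈ F', ‖a‖ ≤ M := by
    intro a ha
    have h1 := Finset.single_le_sum (f := fun a : A => ‖a‖) (fun i _ => norm_nonneg i) ha
    have h2 : 0 ≤ ∑ z ∈ FZ, ‖z‖ := by positivity
    linarith
  have hMz : ∀ z ∈ FZ, ‖z‖ ≤ M := by
    intro a ha
    have h1 := Finset.single_le_sum (f := fun a : Z => ‖a‖) (fun i _ => norm_nonneg i) ha
    have h2 : 0 ≤ ∑ z ∈ F', ‖z‖ := by positivity
    linarith
  have hKb : ∀ b ∈ G, ∑ i ∈ S b, (‖i.1‖ + ‖i.2‖) ≤ K := by
    intro b hb
    exact Finset.single_le_sum (f := fun b => ∑ i ∈ S b, (‖i.1‖ + ‖i.2‖))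
      (fun i _ => by positivity) hb
  obtain ⟨η, hη, hη1, hη2⟩ : ∃ η : ℝ, 0 < η ∧ η ≤ 1 / 2 ∧ η * (1 + 3 * M) * (K + 1) ≤ ε / 2 := by
    refine ⟨min (1 / 2) (ε / 2 / ((1 + 3 * M) * (K + 1))), lt_min (by norm_num) (by positivity),
      min_le_left _ _, ?_⟩
    rw [mul_assoc, ← le_div_iff₀ (by positivity)]
    exact min_le_right _ _
  obtain ⟨w, hw, hw1, hw2⟩ := exists_w hUPX hq hZ hN hH θ hθ ι κ hc F' FZ hη hη1
  have hww : star w * w = 1 := (Unitary.mem_iff.1 hw).1
  have hww' : w * star w = 1 := (Unitary.mem_iff.1 hw).2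
  have hwn : ‖w‖ = 1 := CStarRing.norm_of_mem_unitary hw
  have hcm : ∀ a ∈ F', ‖w * ι a - ι a * w‖ ≤ η * (1 + 3 * M) := by
    intro a ha
    refine (hw1 a ha).trans (mul_le_mul_of_nonneg_left ?_ hη.le)
    have := hMa a ha
    linarith
  have hzm : ∀ z ∈ FZ, ∃ a, ‖w * κ z * star w - ι a‖ ≤ η * (1 + 3 * M) := by
    intro z hz
    obtain ⟨a, ha⟩ := hw2 z hz
    refine ⟨a, ha.trans (mul_le_mul_of_nonneg_left ?_ hη.le)⟩
    have := hMz z hz
    linarith
  set e : ℝ := η * (1 + 3 * M) with he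
  have he0 : 0 ≤ e := by positivity
  have heε : e ≤ ε / 2 := by nlinarith
  refine ⟨star w, Unitary.star_mem hw, ?_, ?_⟩
  · intro a ha
    have h1 : star w * ι a - ι a * star w = star w * (ι a * w - w * ι a) * star w := by
      calc star w * ι a - ι a * star w = star w * ι a * (w * star w) - (star w * w) * ι a * star w := by
            rw [hww', hww, mul_one, one_mul]
        _ = _ := by noncomm_ring
    rw [h1]
    calc ‖star w * (ι a * w - w * ι a) * star w‖ ≤ ‖star w‖ * ‖ι a * w - w * ι a‖ * ‖star w‖ :=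
          (norm_mul_le _ _).trans (mul_le_mul_of_nonneg_right (norm_mul_le _ _) (norm_nonneg _))
      _ = ‖w * ι a - ι a * w‖ := by rw [norm_star, hwn, one_mul, mul_one, norm_sub_rev]
      _ ≤ e := hcm a (Finset.mem_union_left _ ha)
      _ < ε := by linarith
  · intro b hb
    rw [star_star]
    -- choice of the elements
    have hz : ∀ z : Z, ∃ a, z ∈ FZ → ‖w * κ z * star w - ι a‖ ≤ e := by
      intro z
      by_cases h : z ∈ FZ
      · obtain ⟨a, ha⟩ := hzm z h
        exact ⟨a, fun _ => ha⟩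
      · exact ⟨0, fun h' => absurd h' h⟩
    choose c hcz using hz
    refine ⟨∑ i ∈ S b, i.1 * c i.2, ?_⟩
    have h1 : w * b * star w - ι (∑ i ∈ S b, i.1 * c i.2) =
        w * (b - ∑ i ∈ S b, ι i.1 * κ i.2) * star w +
          ∑ i ∈ S b, (w * (ι i.1 * κ i.2) * star w - ι (i.1 * c i.2)) := by
      rw [Finset.sum_sub_distrib, ← map_sum, ← Finset.sum_mul, ← Finset.mul_sum]
      noncomm_ring
    have h2 : ‖w * (b - ∑ i ∈ S b, ι i.1 * κ i.2) * star w‖ < ε / 2 := by
      calc ‖w * (b - ∑ i ∈ S b, ι i.1 * κ i.2) * star w‖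
          ≤ ‖w‖ * ‖b - ∑ i ∈ S b, ι i.1 * κ i.2‖ * ‖star w‖ :=
            (norm_mul_le _ _).trans (mul_le_mul_of_nonneg_right (norm_mul_le _ _) (norm_nonneg _))
        _ = ‖b - ∑ i ∈ S b, ι i.1 * κ i.2‖ := by rw [norm_star, hwn, one_mul, mul_one]
        _ < _ := hS b
    have h3 : ∀ i ∈ S b, ‖w * (ι i.1 * κ i.2) * star w - ι (i.1 * c i.2)‖ ≤ e * (‖i.1‖ + ‖i.2‖) := by
      intro i hi
      have hi1 : i.1 ∈ F' := Finset.mem_union_right _
        (Finset.mem_biUnion.2 ⟨b, hb, Finset.mem_image_of_mem _ hi⟩)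
      have hi2 : i.2 ∈ FZ := Finset.mem_biUnion.2 ⟨b, hb, Finset.mem_image_of_mem _ hi⟩
      have h4 : w * (ι i.1 * κ i.2) * star w - ι (i.1 * c i.2) =
          (w * ι i.1 - ι i.1 * w) * κ i.2 * star w +
            ι i.1 * (w * κ i.2 * star w - ι (c i.2)) := by
        rw [map_mul]
        noncomm_ring
      rw [h4]
      refine (norm_add_le _ _).trans ?_
      have h5 : ‖(w * ι i.1 - ι i.1 * w) * κ i.2 * star w‖ ≤ e * ‖i.2‖ := by
        refine (norm_mul_le _ _).trans ?_
        rw [norm_star, hwn, mul_one]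
        exact (norm_mul_le _ _).trans (mul_le_mul (hcm _ hi1) (nle κ _) (norm_nonneg _) he0)
      have h6 : ‖ι i.1 * (w * κ i.2 * star w - ι (c i.2))‖ ≤ ‖i.1‖ * e :=
        (norm_mul_le _ _).trans (mul_le_mul (nle ι _) (hcz _ hi2) (norm_nonneg _) (norm_nonneg _))
      linarith
    have h4 : ‖∑ i ∈ S b, (w * (ι i.1 * κ i.2) * star w - ι (i.1 * c i.2))‖ ≤ e * K := by
      refine (norm_sum_le _ _).trans ((Finset.sum_le_sum h3).trans ?_)
      rw [← Finset.mul_sum]
      exact mul_le_mul_of_nonneg_left (hKb b hb) he0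
    have h5 : e * K ≤ ε / 2 := by nlinarith
    rw [h1]
    refine (norm_add_le _ _).trans_lt ?_
    linarith

end Pool.Agent.N348.DT
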